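import Pool.Agent.Q223.LD.RealLaw
import Pool.Agent.Q5.DP.Real

/-! Deligne's conjecture for a motive that may have classes of type `(q, q)`, over totally real
fields with prescribed local degrees, implies it over all totally real fields. -/

set_option autoImplicit false

namespace Pool.Agent.Results.MP_b696eb_nt.LocalDegreesReal

open NumberField Pool.Agent.Q5.DP Pool.Agent.Q5.BR Pool.Agent.W353.NF Pool.Agent.W401.Cheb
  Pool.Agent.Q223.LD

theorem result (E : Type) [Field E] [NumberField E] (M : Mot E) (hM : IsCriticalR M)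
    (S : Finset ℕ) (hS : ∀ q ∈ S, q.Prime) :
    -- (1) the descent
    (∀ D : ℕ → Set ℕ, (∀ q ∈ S, ∀ d ∈ D q, ∀ n : ℕ, 0 < n → d * n ∈ D q) →
      (∀ q ∈ S, ∀ g : ℕ, (∀ d ∈ D q, g ∣ d) → g = 1) →
      (∀ (F : Type) [Field F] [NumberField F] [IsTotallyReal F], (∀ q ∈ S, ∀ v : Ideal (𝓞 F),
        v.IsPrime → (q : 𝓞 F) ∈ v → v.ramificationIdx ℤ * v.inertiaDeg ℤ ∈ D q) → Deligne M F) →
      ∀ (F : Type) [Field F] [NumberField F] [IsTotallyReal F], Deligne M F) ∧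
    -- (2) the formula
    ∀ N : ℕ, N ≠ 0 → ∃ (ι : Type) (_ : Fintype ι) (Y : ι → Ext ℚ) (n : ι → ℤ),
      (∀ j, IsTotallyReal (Y j).F) ∧
      (∀ j, ∃ p : ℕ, p.Prime ∧ ∀ q ∈ S, ∀ v : Ideal (𝓞 (Y j).F), v.IsPrime →
        (q : 𝓞 (Y j).F) ∈ v → ordCompl[p] N ∣ v.ramificationIdx ℤ * v.inertiaDeg ℤ) ∧
      (∀ g : AlgebraicClosure ℚ ≃+* AlgebraicClosure ℚ, ∑ j, n j * (fixed (Y j).F g : ℤ) = 1) ∧
      ∀ ℓ₀ c₀ : (E →+* ℂ) → ℂ, IsValue M ℚ ℓ₀ → IsPeriod M ℚ c₀ →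
      ∀ ℓ c : ι → (E →+* ℂ) → ℂ, (∀ j, IsValue M (Y j).F (ℓ j)) →
      (∀ j, IsPeriod M (Y j).F (c j)) →
      ∃ e : E, e ≠ 0 ∧ ∀ τ, (∏ j, (ℓ j τ / c j τ) ^ (n j)) * (ℓ₀ τ / c₀ τ)⁻¹ = τ e := by
  refine ⟨fun D hD hD' h F _ _ _ => ?_, fun N hN => ?_⟩
  · have hex : ∀ q ∈ S, ∃ M : ℕ, M ≠ 0 ∧ ∀ p : ℕ, p.Prime → ∃ d ∈ D q, d ≠ 0 ∧
      d ∣ ordCompl[p] M := fun q hq => exists_M (hD' q hq)
    choose! m hm0 hmp using hex
    have hprod : ∏ q ∈ S, m q ≠ 0 := Finset.prod_ne_zero_iff.2 hm0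
    obtain ⟨L, _, _, _, _, _, hL⟩ := exists_real F S hS hprod
    refine real_descent hM L (fun Y _ _ _ hY => ?_) F
    have hYr : IsTotallyReal Y := by
      have : FiniteDimensional Y L := FiniteDimensional.right ℚ Y L
      exact IsTotallyReal.of_algebra Y L
    refine h Y fun q hq I hI hqI => ?_
    obtain ⟨p, hp, hpl⟩ := hL Y hY
    obtain ⟨d, hdD, hd0, hdvd⟩ := hmp q hq p hp
    have h3 := hpl q hq I hI hqI
    have h4 : d ∣ I.ramificationIdx ℤ * I.inertiaDeg ℤ :=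
      (hdvd.trans (Nat.ordCompl_dvd_ordCompl_of_dvd (Finset.dvd_prod_of_mem m hq) p)).trans h3
    obtain ⟨k, hk⟩ := h4
    rw [hk]
    refine hD q hq d hdD k (Nat.pos_of_ne_zero ?_)
    rintro rfl
    rw [mul_zero] at hk
    exact (Nat.mul_pos (Ideal.ramificationIdx_pos I ℤ) (Ideal.inertiaDeg_pos I ℤ)).ne' hk
  · have hPF := period_formula_real hM
    obtain ⟨L, _, _, alg, _, _, hL⟩ := exists_real ℚ S hS hN
    obtain rfl : alg = DivisionRing.toRatAlgebra := Subsingleton.elim _ _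
    obtain ⟨ι, hι, Y, a, n, hY, hrel⟩ := hyper_relation L ℚ
    have hYr : ∀ j, IsTotallyReal (Y j).F := fun j => by
      let _ := a j
      have : FiniteDimensional (Y j).F L := FiniteDimensional.right ℚ (Y j).F L
      exact IsTotallyReal.of_algebra (Y j).F L
    have hrel' : ∀ g : AlgebraicClosure ℚ ≃+* AlgebraicClosure ℚ,
        ∑ j, n j * (fixed (Y j).F g : ℤ) = 1 := by
      intro g
      let σ : GK ℚ := AlgEquiv.ofRingEquiv (f := g) fun x => map_ratCast g x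
      rw [← hrel σ]
      refine Finset.sum_congr rfl fun j _ => ?_
      rw [fixn_fixed (Module.finrank_self ℚ)]
      rfl
    refine ⟨ι, hι, Y, n, hYr, fun j => ?_, hrel', ?_⟩
    · let _ := a j
      exact hL (Y j).F (hY j)
    intro ℓ₀ c₀ hℓ₀ hc₀ ℓ c hℓ hc
    let Z : Option ι → Ext ℚ := fun o => o.elim (Ext.mk ℚ) Y
    have h1 := quot_rel (T := fun F _ _ => IsTotallyReal F) hPF hM.pure hM.wt (ι := Option ι)
      (Z := fun o => (Z o).F) (by rintro (_ | j); exacts [(inferInstance : IsTotallyReal ℚ), hYr j])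
      (n := fun o => o.elim (-1) n)
      (fun g => by
        rw [Fintype.sum_option]
        change (-1 : ℤ) * (fixed ℚ g : ℤ) + ∑ j, n j * (fixed (Y j).F g : ℤ) = 0
        have h2 : fixed ℚ g = 1 := by
          unfold fixed
          rw [Nat.card_eq_one_iff_unique]
          refine ⟨⟨fun a b => Subtype.ext (Subsingleton.elim _ _)⟩,
            ⟨⟨algebraMap ℚ _, fun x => by rw [eq_ratCast, map_ratCast]⟩⟩⟩
        rw [hrel' g, h2]
        norm_num)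
      (ℓ := fun o => o.elim ℓ₀ ℓ) (c := fun o => o.elim c₀ c)
      (by rintro (_ | j); exacts [hℓ₀, hℓ j]) (by rintro (_ | j); exacts [hc₀, hc j])
    obtain ⟨e, he, h3⟩ := h1
    refine ⟨e, he, fun τ => ?_⟩
    rw [← h3 τ, Fintype.prod_option]
    change _ = (ℓ₀ τ / c₀ τ) ^ (-1 : ℤ) * ∏ j, (ℓ j τ / c j τ) ^ (n j)
    rw [zpow_neg_one, mul_comm]

end Pool.Agent.Results.MP_b696eb_nt.LocalDegreesReal
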