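import Pool.Agent.Q5.DP.Real

/-! Deligne's conjecture for a motive that may have classes of type `(q, q)`, over the totally real
fields: descent to `ℚ`. -/

namespace Pool.Agent.Results.MP_b696eb_nt.TotallyRealDescent

open NumberField Pool.Agent.Q5.DP Pool.Agent.Q5.SO

theorem result (E : Type) [Field E] [NumberField E] (M : Mot E) (hM : IsCriticalR M) :
    -- (1) the values and the periods over the totally real fields exist and are not zero
    (∀ (F : Type) [Field F] [NumberField F] [IsTotallyReal F], (∃ ℓ, IsValue M F ℓ) ∧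
      (∃ c, IsPeriod M F c) ∧ (∀ ℓ, IsValue M F ℓ → ∀ τ, ℓ τ ≠ 0) ∧
      ∀ c, IsPeriod M F c → ∀ τ, c τ ≠ 0) ∧
    -- (2) Deligne's conjecture is compatible with the relations between permutation characters
    (∀ (ι : Type) [Fintype ι] (Z : ι → Type) [∀ j, Field (Z j)] [∀ j, NumberField (Z j)]
      [∀ j, IsTotallyReal (Z j)] (n : ι → ℤ),
      (∀ g : AlgebraicClosure ℚ ≃+* AlgebraicClosure ℚ, ∑ j, n j * (fixed (Z j) g : ℤ) = 0) →
      ∀ ℓ c : ι → (E →+* ℂ) → ℂ, (∀ j, IsValue M (Z j) (ℓ j)) → (∀ j, IsPeriod M (Z j) (c j)) →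
      ∃ e : E, e ≠ 0 ∧ ∀ τ, ∏ j, (ℓ j τ / c j τ) ^ (n j) = τ e) ∧
    -- (3) the descent from the subfields of a totally real Galois extension of `ℚ`
    (∀ (L : Type) [Field L] [NumberField L] [IsGalois ℚ L] [IsTotallyReal L],
      (∀ (F : Type) [Field F] [NumberField F] [Algebra F L], Hyper (L ≃ₐ[F] L) → Deligne M F) →
      ∀ (F : Type) [Field F] [NumberField F] [Algebra F L], Deligne M F) ∧
    -- (4) the descent from families of totally real fields
    ∀ 𝓕 : Set (Subfield (AlgebraicClosure ℚ)), ExactS 𝓕 → (∀ F ∈ 𝓕, IsTotallyReal F) →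
      (∀ F ∈ 𝓕, ∀ [NumberField F], Deligne M F) → Deligne M ℚ := by
  have hPF := period_formula_real hM
  refine ⟨fun F _ _ hF => ⟨exists_value hM.pure hM.wt F, ?_, fun ℓ h τ =>
    value_ne hM.pure hM.wt h τ, fun c h τ => period_ne hPF hF h τ⟩, ?_, ?_, ?_⟩
  · obtain ⟨Ap, Am, -, -, hF'⟩ := hPF
    exact (hF' F hF).1
  · intro ι _ Z _ _ hZ n h ℓ c hℓ hc
    exact quot_rel hPF hM.pure hM.wt hZ h hℓ hc
  · intro L _ _ _ _ h F _ _ _
    exact real_descent hM L h F
  · intro 𝓕 h hr h1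
    exact real_exact hM h hr h1

end Pool.Agent.Results.MP_b696eb_nt.TotallyRealDescent
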