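import Mathlib
import Pool.Agent.Q7.RL.Nnz

/-!
# Deligne's conjecture for elliptic curves over number fields without new zeros

`E` is an elliptic curve over `K = ℚ` (or over any number field `K`) with an integral equation `W`
(`IsModel E W`), and `M/K` is a Galois extension with group `M ≃ₐ[K] M`, ANY finite group.
`Irr G` is the set of irreducible complex characters of the finite group `G`.

The L-functions are real ones. `Pool.Agent.Q92.RT.twistedL M W φ` is `L(E ⊗ φ, s)` for a class
function `φ` of the Galois group: `exp ∑ φ(Frob_v ^ n) (α_v ^ n + β_v ^ n) / (n q_v ^ (n s))` over `n ≥ 1`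
and the primes `v` of `K` which do not divide `6` and the discriminant of `W` and are unramified in
`M`; the finitely many Euler factors left out have no zeros and poles for `Re s ≥ 1`, and for
`s = 1` their values are algebraic and Galois equivariant. `induced H ψ` is the character induced by the
linear character `ψ` of `H`, so that `twistedL M W (induced H ψ)` is `L(E/M^H ⊗ ψ, s)`.
`HasOrder g s₀ n`: the function `g`, given for `Re s > 3/2`, has a meromorphic continuation to `ℂ`
(it is called `cont g`), of order `n` at `s₀`. `Orders E W s₀ n r`: the order of `L(E ⊗ χ, s)` at `s₀` is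
`n χ` and that of the complete L-function `L(E/F, s)` is `r F`, for all fields `F` between `K` and `M`
(`⊤` is `M`). `Equivariant σ g c g' c'`: the continuations of `g` and `g'` have values `v` and `v'` at
`s = 1`, and `σ (v / c) = v' / c'`. `RationalMultiple E c`: the value `L(E, 1)` of the complete
L-function (right Euler factors at all primes) of the elliptic curve `E` over a number field exists
and is a rational multiple of `c`.

`Automorphic M W 1` (known if `E` is automorphic over `M`): `L(E ⊗ χ, s)` has a meromorphic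
continuation for `χ ∈ Irr`, and `L(E/M^H ⊗ ψ, s)` one which is holomorphic at `1` for the linear
characters `ψ` of the SOLVABLE subgroups `H` (solvable descent); for the other subgroups nothing is
known. No functional equation is used.

`F` is a Galois extension of `K` in `M` of degree a power of the prime `p`, for example `F = K`. `Z` is
a central subgroup. Application: `M` is a CM field, `c` complex conjugation and `Z = {1, c}`; then the
fields `M ^ H` with `Z ≤ H` are the (totally real) fields between `ℚ` and `M⁺`. (For totally real `M`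
take `Z = 1`.)

`Pool.Agent.Q7.GR.galL σ ψ` is the linear character `h ↦ σ (ψ h)`, `σ` an automorphism of `ℂ`.
`PeriodFamily G` is a family of numbers `per χ ≠ 0` with the products
`ind H ψ = ∏ per χ ^ ⟨χ|_H, ψ⟩` (for `Ind ψ`). Application: `per χ` is the Gauss sum of `det χ`, times a
fixed power of `2πi` to the power `χ(1)`; up to a power of `2πi` and a rational factor `ind H 1` is the
square root of the discriminant of `M ^ H`.

The hypothesis in parts (3) and (4) is, for the set `T` of all automorphisms of `ℂ`, a theorem of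
Shimura (Duke Math. J. 45, 1978) on the Hilbert modular form of `E` over the totally real fields
`M ^ H`, `H` solvable: there are periods `u H ψ`, which depend on `M ^ H` and the sign `ψ(c)` only,
such that `L(E / M ^ H ⊗ ψ, 1)`, divided by the Gauss sum of `ψ`, a power of `2πi` and this period, is
an algebraic number with the expected conjugates.
-/

set_option autoImplicit false

open NumberField Pool.Agent.H541R3.ART Pool.Agent.Q7.GR Pool.Agent.Q7.DC Pool.Agent.Q7.SZ
  Pool.Agent.Q7.RL Pool.Agent.Q92.RT Pool.Agent.W353.NF Pool.Agent.H341R2.EC Topology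

/-- Let `F/K` be a Galois extension in `M` of degree a power of the prime `p`, for example `F = K`, and
suppose that `L(E/M, s)` and `L(E/F, s)` have the same order at `s = 1` (no new zeros in `M/F`). Then:
(1) For ALL irreducible characters `χ` of the Galois group of `M/K` the function `L(E ⊗ χ, s)` is
holomorphic at `1`, and it is not zero there if `χ` does not factor through the group of `F/K`.
(2) If `L(E ⊗ χ, 1)` is not zero, there are solvable subgroups `H_i` containing `Z`, linear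
characters `ψ_i` of them with `L(E / M ^ H_i ⊗ ψ_i, 1)` NOT ZERO and `ψ_i = χ / χ(1)` on `Z`, and
integers `a_i`, such that `L(E ⊗ (σ ∘ χ), s) = ∏ L(E / M ^ H_i ⊗ (σ ∘ ψ_i), s) ^ a_i` near `s = 1` for all
automorphisms `σ` of `ℂ`.
(3) Suppose that for `σ ∈ T`, the SOLVABLE `H` containing `Z` and their linear characters `ψ` the
values `L(E / M ^ H ⊗ ψ, 1)` are `σ`-equivariant with the periods `ind H ψ * u H ψ`. Then there is for
every `χ` a product `v` of powers of numbers `u H ψ`, with `ψ = χ / χ(1)` on `Z`, such that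
`σ (L(E ⊗ χ, 1) / (per χ * v)) = L(E ⊗ (σ ∘ χ), 1) / (per (σ ∘ χ) * v)` for all `σ ∈ T`, and the same
holds for ALL subgroups `J` and their linear characters.
(4) If this is so for all automorphisms `σ` of `ℂ`, then for ALL fields `F'` between `K` and `M` the
value `L(E/F', 1)` of the complete L-function exists and is a RATIONAL multiple of `ind J 1 * v`, with
a product `v` of powers of the numbers `u`, where `J` is the group of `M/F'`, solvable or not. -/
theorem Pool.Agent.Results.MP_b696eb_nt.ValuesOverAllSubfields.result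
    (K M : Type) [Field K] [NumberField K] [Field M] [NumberField M] [Algebra K M] [IsGalois K M]
    (E : WeierstrassCurve K) (hE : E.IsElliptic) (W : WeierstrassCurve (𝓞 K)) (hW : IsModel E W)
    (a : Automorphic M W 1) (Z : Subgroup (M ≃ₐ[K] M)) (hZ : Z ≤ Subgroup.center (M ≃ₐ[K] M))
    (F : IntermediateField K M) [IsGalois K F] (p k : ℕ) (hp : p.Prime)
    (hF : Module.finrank K F = p ^ k) :
    ∃ (n : ((M ≃ₐ[K] M) → ℂ) → ℤ) (r : IntermediateField K M → ℤ), Orders E W 1 n r ∧
      (r ⊤ = r F →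
        (∀ χ ∈ Irr (M ≃ₐ[K] M), 0 ≤ n χ ∧
          ((∃ g ∈ F.fixingSubgroup, χ g ≠ χ 1) → n χ = 0)) ∧
        (∀ χ ∈ Irr (M ≃ₐ[K] M), n χ = 0 →
          ∃ l : List ((Σ H : Subgroup (M ≃ₐ[K] M), (H →* ℂˣ)) × ℤ),
            (∀ t ∈ l, Z ≤ t.1.1 ∧ Group.IsSolvable t.1.1 ∧
              (∀ z ∈ Z, ∀ hz' : z ∈ t.1.1, χ z = ((t.1.2 ⟨z, hz'⟩ : ℂˣ) : ℂ) * χ 1) ∧
              HasOrder (twistedL M W (induced t.1.1 t.1.2)) 1 0) ∧
            ∀ σ : ℂ ≃+* ℂ, cont (twistedL M W fun g => σ (χ g)) =ᶠ[𝓝[≠] 1]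
              fun s => (l.map fun t =>
                cont (twistedL M W (induced t.1.1 (galL σ t.1.2))) s ^ t.2).prod) ∧
        (∀ (P : PeriodFamily (M ≃ₐ[K] M)) (T : Set (ℂ ≃+* ℂ))
          (u : (H : Subgroup (M ≃ₐ[K] M)) → (H →* ℂˣ) → ℂˣ),
          (∀ σ ∈ T, ∀ H : Subgroup (M ≃ₐ[K] M), Z ≤ H → Group.IsSolvable H → ∀ ψ : H →* ℂˣ,
            Equivariant σ (twistedL M W (induced H ψ)) (P.ind H ψ * (u H ψ : ℂ))
              (twistedL M W (induced H (galL σ ψ))) (P.ind H (galL σ ψ) * (u H ψ : ℂ))) →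
          (∀ χ ∈ Irr (M ≃ₐ[K] M), ∃ v ∈ Subgroup.closure {x : ℂˣ |
              ∃ (H : Subgroup (M ≃ₐ[K] M)) (ψ : H →* ℂˣ), Z ≤ H ∧ Group.IsSolvable H ∧
              (∀ z ∈ Z, ∀ hz' : z ∈ H, χ z = ((ψ ⟨z, hz'⟩ : ℂˣ) : ℂ) * χ 1) ∧ x = u H ψ},
            ∀ σ ∈ T, Equivariant σ (twistedL M W χ) (P.per χ * (v : ℂ))
              (twistedL M W fun g => σ (χ g)) (P.per (fun g => σ (χ g)) * (v : ℂ))) ∧
          (∀ (J : Subgroup (M ≃ₐ[K] M)) (ψ : J →* ℂˣ), ∃ v ∈ Subgroup.closure {x : ℂˣ |
              ∃ (H : Subgroup (M ≃ₐ[K] M)) (ψ : H →* ℂˣ), Z ≤ H ∧ Group.IsSolvable H ∧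
              x = u H ψ},
            ∀ σ ∈ T, Equivariant σ (twistedL M W (induced J ψ)) (P.ind J ψ * (v : ℂ))
              (twistedL M W (induced J (galL σ ψ))) (P.ind J (galL σ ψ) * (v : ℂ))) ∧
          ((∀ σ, σ ∈ T) → ∀ F' : IntermediateField K M, ∃ v ∈ Subgroup.closure {x : ℂˣ |
              ∃ (H : Subgroup (M ≃ₐ[K] M)) (ψ : H →* ℂˣ), Z ≤ H ∧ Group.IsSolvable H ∧
              x = u H ψ},
            RationalMultiple (E.map (algebraMap K F')) (P.ind F'.fixingSubgroup 1 * (v : ℂ))))) := by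
  classical
  obtain ⟨n, r, ho⟩ := exists_orders (M := M) hE hW (by simp) a
  refine ⟨n, r, ho, fun hrF => ?_⟩
  set A := TwistData.ofCurve a with hA
  set N := F.fixingSubgroup with hNdef
  have hN : N.Normal := inferInstanceAs F.fixingSubgroup.Normal
  have hG : IsPGroup p ((M ≃ₐ[K] M) ⧸ N) := by
    have : Fact p.Prime := ⟨hp⟩
    refine IsPGroup.of_card (n := k) ?_
    rw [← hF, finrank_eq_index F]
    rfl
  have hr : meromorphicOrderAt (A.Lin ⊥ 1) 1 = meromorphicOrderAt (A.Lin N 1) 1 := by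
    rw [hA, ho.bot hE hW (by simp) a, hNdef, ho.lin hE hW (by simp) a F, hrF]
  have hn : ∀ χ ∈ Irr (M ≃ₐ[K] M), A.ord χ = n χ := fun χ hχ => ho.ord a hχ
  refine ⟨?_, ?_, ?_⟩
  · intro χ hχ
    rw [← hn χ hχ]
    refine ⟨nonneg_pp A hN hp hG hr hχ, ?_⟩
    rintro ⟨g, hg, hne⟩
    by_contra h0
    obtain ⟨η, -, rfl⟩ := supp_coset A hN hp hG hr hχ h0
    apply hne
    have h1 : QuotientGroup.mk' N g = 1 := (QuotientGroup.eq_one_iff g).mpr hg
    simp only [h1, map_one]
  · intro χ hχ h0
    rw [← hn χ hχ] at h0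
    obtain ⟨l, h2, h3⟩ := expand_pp A hZ hN hp hG hr hχ h0
    refine ⟨l, fun t ht => ?_, fun σ => L_expand_gal A hχ h3 σ⟩
    obtain ⟨i1, i2, i3, i4⟩ := h2 t ht
    exact ⟨i1, i2, i3, (ind_iff a _ _ 0).2 i4⟩
  · intro P T u hu
    have h1 := values_pp A (P.periods A) hZ hN hp hG hr T u (fun σ hσ H hH hs ψ =>
      (equivariant_iff (ex_ind a _ _) (ex_ind a _ _)).1 (hu σ hσ H hH hs ψ))
    have hJ : ∀ (J : Subgroup (M ≃ₐ[K] M)) (ψ : J →* ℂˣ), ∃ v ∈ Subgroup.closure {x : ℂˣ |
        ∃ (H : Subgroup (M ≃ₐ[K] M)) (ψ : H →* ℂˣ), Z ≤ H ∧ Group.IsSolvable H ∧ x = u H ψ},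
        ∀ σ ∈ T, Equivariant σ (twistedL M W (induced J ψ)) (P.ind J ψ * (v : ℂ))
          (twistedL M W (induced J (galL σ ψ))) (P.ind J (galL σ ψ) * (v : ℂ)) := by
      intro J ψ
      have h2 : ∀ χ : (M ≃ₐ[K] M) → ℂ, ∃ v ∈ Subgroup.closure {x : ℂˣ |
          ∃ (H : Subgroup (M ≃ₐ[K] M)) (ψ : H →* ℂˣ), Z ≤ H ∧ Group.IsSolvable H ∧ x = u H ψ},
          χ ∈ Irr (M ≃ₐ[K] M) →
          ∀ σ ∈ T, Agree σ 1 (A.L χ) ((P.periods A).per χ * (v : ℂ)) (A.L fun g => σ (χ g))
            ((P.periods A).per (fun g => σ (χ g)) * (v : ℂ)) := by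
        intro χ
        by_cases hχ : χ ∈ Irr (M ≃ₐ[K] M)
        · obtain ⟨v, hv, hv'⟩ := h1 χ hχ
          refine ⟨v, Subgroup.closure_mono ?_ hv, fun _ => hv'⟩
          rintro x ⟨H, ψ', i1, i2, -, i4⟩
          exact ⟨H, ψ', i1, i2, i4⟩
        · exact ⟨1, one_mem _, fun h => absurd h hχ⟩
      choose v hv hv' using h2
      refine ⟨∏ χ ∈ irrF (M ≃ₐ[K] M), v χ ^ mt J ψ χ, Subgroup.prod_mem _ fun χ _ =>
        Subgroup.pow_mem _ (hv χ) _, fun σ hσ => ?_⟩
      exact (equivariant_iff (ex_ind a _ _) (ex_ind a _ _)).2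
        (agree_lin_v A (P.periods A) σ v (fun χ hχ => hv' χ hχ σ hσ) J ψ)
    refine ⟨fun χ hχ => ?_, hJ, fun hT F' => ?_⟩
    · obtain ⟨v, hv, h2⟩ := h1 χ hχ
      exact ⟨v, hv, fun σ hσ =>
        (equivariant_iff (ex_irr a hχ) (ex_irr a (irr_gal σ hχ))).2 (h2 σ hσ)⟩
    · obtain ⟨v, hv, h2⟩ := hJ F'.fixingSubgroup 1
      refine ⟨v, hv, ?_⟩
      have h3 : ∀ σ : ℂ ≃+* ℂ, galL σ (1 : F'.fixingSubgroup →* ℂˣ) = 1 := by
        intro σ
        ext g
        rw [galL_val]
        simp
      have hc : P.ind F'.fixingSubgroup 1 * (v : ℂ) ≠ 0 :=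
        mul_ne_zero (perLin_ne A (P.periods A) F'.fixingSubgroup 1) (Units.ne_zero _)
      obtain ⟨q, hq⟩ := value_of_equivariant hc fun σ => by
        have h4 := h2 σ (hT σ)
        rwa [h3] at h4
      exact rationalMultiple_field hE hW F' hq
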