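import Pool.Agent.Q284.DL.Fi

/-!
# The weak form over finitely many real abelian fields implies Deligne's conjecture over `ℚ`

`M` is a motive over `ℚ` with rational coefficients. It enters through the matrices `Φ p` (rational
matrices with `det (1 - T Φ p)` the Euler polynomial of `M` at `p`, for every prime `p`) and through the
matrix `J` of `I_∞^+` in rational bases, so that `c^+(M) = det J`.
-/

set_option autoImplicit false

namespace Pool.Agent.Results.MP_b696eb_nt.WeakFormSuffices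

open Pool.Agent.Q284.DL

theorem result {r h : ℕ} (w : ℤ) (Φ : ℕ → Matrix (Fin r) (Fin r) ℚ) (hΦ : HasWeights w Φ)
    (J : Matrix (Fin h) (Fin h) ℂ) (p q n₁ n₂ m₁ m₂ : ℕ) (hp : p.Prime) (hq : q.Prime) (hpq : p ≠ q)
    (hn₁ : TwoPrimes p n₁) (hn₂ : TwoPrimes p n₂) (hn : n₁.Coprime n₂)
    (hm₁ : TwoPrimes q m₁) (hm₂ : TwoPrimes q m₂) (hm : m₁.Coprime m₂)
    (h₁ : WeakAt w Φ J p n₁) (h₂ : WeakAt w Φ J p n₂)
    (h₃ : WeakAt w Φ J q m₁) (h₄ : WeakAt w Φ J q m₂) :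
    ∃ z : ℂ, z ≠ 0 ∧ IsValue w Φ ℚ z ∧ ∃ x : ℚ, z = x * J.det :=
  weak_strong hΦ hp hq hpq hn₁ hn₂ hn hm₁ hm₂ hm h₁ h₂ h₃ h₄

end Pool.Agent.Results.MP_b696eb_nt.WeakFormSuffices
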